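import Pool.Agent.Lib.MP_921642_ag.FI.ALL4
import Pool.Agent.Lib.MP_921642_ag.FD.Main

/-!
# The weak Fröberg–Iarrobino inequality for m ≤ ρ d, uniformly in the degree d

The definitions `VanishesToOrder`, `linSys`, `kI`, `lvdim`, `ldim` are in
`Pool.Agent.Lib.MP_921642_ag.Defs`.
-/

set_option autoImplicit false

namespace Pool.Agent.Results.MP_921642_ag.EveryRatio

open Pool.Agent.Lib.MP_921642_ag

/-- The weak Fröberg–Iarrobino inequality `dim L ≥ ldim L` for `L = L_{n,d}(m^s)`, uniformly in the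
degree: for every real `ρ < 1` there is `M` such that it holds for all `n ≥ M`, all `d`, all `m`
with `1 ≤ m ≤ ρ d`, every number `s` of points and arbitrary (in particular general) points. -/
theorem result :
    ∀ ρ : ℝ, ρ < 1 → ∃ M : ℕ, ∀ n d m s : ℕ, M ≤ n → 1 ≤ m → (m : ℝ) ≤ ρ * d →
      ∀ p : Fin s → Fin (n + 1) → ℂ,
        ldim n d s (fun _ => m) ≤ (Module.finrank ℂ (linSys n d s (fun _ => m) p) : ℤ) := by
  have h1 : ∀ d : ℕ, ∃ n₀ : ℕ, ∀ n m s : ℕ, n₀ ≤ n → 1 ≤ m → m ≤ d →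
      ∀ p : Fin s → Fin (n + 1) → ℂ,
        ldim n d s (fun _ => m) ≤ (Module.finrank ℂ (linSys n d s (fun _ => m) p) : ℤ) := by
    intro d
    obtain ⟨n0, h⟩ := FrD.hMFD d
    exact ⟨n0, fun n m s hn hm hmd p => h n hn m s hm hmd p⟩
  intro ρ hρ
  obtain ⟨M1, hM1⟩ := FrI.COR4M.cor4 FrI.ALL4M.cMAIN4 ρ hρ
  choose N hN using h1
  refine ⟨max M1 ((Finset.range M1).sup N), fun n d m s hn hm hmd p => ?_⟩
  by_cases hd : M1 ≤ d
  · exact hM1 n d m s (le_trans (le_max_left _ _) hn) hd hm hmd p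
  · push Not at hd
    have hmd' : m ≤ d := by
      have h2 : (m : ℝ) ≤ d := by
        have hd0 : (0 : ℝ) ≤ d := Nat.cast_nonneg d
        nlinarith
      exact_mod_cast h2
    refine hN d n m s ?_ hm hmd' p
    refine le_trans ?_ (le_trans (le_max_right _ _) hn)
    exact Finset.le_sup (f := N) (Finset.mem_range.2 hd)

end Pool.Agent.Results.MP_921642_ag.EveryRatio
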