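import Pool.Agent.Lib.MP_921642_ag.FD.Main

/-!
# The weak Fröberg–Iarrobino inequality in each fixed degree, for large n

The definitions `VanishesToOrder`, `linSys`, `kI`, `lvdim`, `ldim` are in
`Pool.Agent.Lib.MP_921642_ag.Defs`.
-/

set_option autoImplicit false

namespace Pool.Agent.Results.MP_921642_ag.FixedDegree

open Pool.Agent.Lib.MP_921642_ag

/-- The weak Fröberg–Iarrobino inequality `dim L ≥ ldim L` for `L = L_{n,d}(m^s)` in each fixed
degree: for every `d` there is `n₀` such that it holds for all `n ≥ n₀`, all `1 ≤ m ≤ d`, every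
number `s` of points and arbitrary (in particular general) points. -/
theorem result :
    ∀ d : ℕ, ∃ n₀ : ℕ, ∀ n m s : ℕ, n₀ ≤ n → 1 ≤ m → m ≤ d →
      ∀ p : Fin s → Fin (n + 1) → ℂ,
        ldim n d s (fun _ => m) ≤ (Module.finrank ℂ (linSys n d s (fun _ => m) p) : ℤ) := by
  intro d
  obtain ⟨n0, h⟩ := FrD.hMFD d
  exact ⟨n0, fun n m s hn hm hmd p => h n hn m s hm hmd p⟩

end Pool.Agent.Results.MP_921642_ag.FixedDegree
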