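import Pool.Agent.Lib.MP_921642_ag.TwoThirds

/-!
# The weak Froeberg-Iarrobino conjecture for multiplicities up to about two thirds of the degree

The definitions `VanishesToOrder`, `linSys`, `kI`, `lvdim`, `ldim` are in
`Pool.Agent.Lib.MP_921642_ag.Defs`.
-/

set_option autoImplicit false

namespace Pool.Agent.Results.MP_921642_ag.TwoThirds

open Pool.Agent.Lib.MP_921642_ag

/-- The weak Froeberg-Iarrobino inequality `dim L ≥ ldim L` for `L = L_{n,d}(m^s)`, for arbitrary
(in particular for general) points and for every number `s` of points, whenever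
`9 m + n ≤ 6 d + 9`. -/
theorem result (n d m s : ℕ) (hn : 1 ≤ n) (hm : 1 ≤ m) (h : 9 * m + n ≤ 6 * d + 9)
    (p : Fin s → Fin (n + 1) → ℂ) :
    ldim n d s (fun _ => m) ≤ (Module.finrank ℂ (linSys n d s (fun _ => m) p) : ℤ) :=
  main_two_thirds n d m s hn hm h p

end Pool.Agent.Results.MP_921642_ag.TwoThirds
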