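import Pool.Agent.Lib.MP_921642_ag.FI.ALL4

/-!
# The weak Fröberg–Iarrobino inequality in a uniform range

The definitions `VanishesToOrder`, `linSys`, `kI`, `lvdim`, `ldim` are in
`Pool.Agent.Lib.MP_921642_ag.Defs`.
-/

set_option autoImplicit false

namespace Pool.Agent.Results.MP_921642_ag.UniformRange

open Pool.Agent.Lib.MP_921642_ag

/-- The weak Fröberg–Iarrobino inequality `dim L ≥ ldim L` for `L = L_{n,d}(m^s)`, for every number
`s` of points and for arbitrary (in particular for general) points: with `A = d + 1 - m`, it holds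
whenever `10⁹ (log n)² d⁵ ≤ A⁵ min(n, d)`, or `d³ ≤ n` and `10⁹ (log d)⁴ d⁵ ≤ A⁶`. -/
theorem result :
    ∀ n d m s : ℕ, 2 ≤ n → 1 ≤ m → m ≤ d →
      (10 ^ 9 * (Real.log n) ^ 2 * (d : ℝ) ^ 5 ≤ ((d : ℝ) + 1 - m) ^ 5 * min (n : ℝ) d ∨
        (d ^ 3 ≤ n ∧ 10 ^ 9 * (Real.log d) ^ 4 * (d : ℝ) ^ 5 ≤ ((d : ℝ) + 1 - m) ^ 6)) →
      ∀ p : Fin s → Fin (n + 1) → ℂ,
        ldim n d s (fun _ => m) ≤ (Module.finrank ℂ (linSys n d s (fun _ => m) p) : ℤ) := by
  intro n d m s hn hm hmd h p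
  refine FrI.ALL4M.cMAIN4 n d m s hn hm hmd ?_ p
  have hA : ((d + 1 - m : ℕ) : ℝ) = (d : ℝ) + 1 - m := by
    rw [Nat.cast_sub (by omega)]
    push_cast
    ring
  rw [hA, Nat.cast_min]
  exact h

end Pool.Agent.Results.MP_921642_ag.UniformRange
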